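import Pool.Agent.Helper15.RK.GoalsF

/-!
# Packet RK-A POSK: a nonnegative invariant density with integral zero vanishes
-/

open Complex Metric Set Filter Topology MeasureTheory
open scoped ContDiff ComplexConjugate ComplexOrder Manifold Matrix

namespace Pool.Agent.Helper55.RK

open Pool.Agent.Helper95.Lin Pool.Agent.Helper16.Abund Pool.Agent.Helper92.Orb
  Pool.Agent.Helper10.SP Pool.Agent.Helper95.RK Pool.Agent.Helper15.RK

universe u

theorem posk : S_POSK.{u} := by
  intro n T G _ R h κ hκ F hF hF0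
  obtain ⟨hFc, hFinv, hFint⟩ := hF
  obtain ⟨hκs, hκc, hκT⟩ := hκ.test
  have hopen := h.isOpen
  have hκ0 : ∀ x, x ∉ T → κ x = 0 := fun x hx =>
    image_eq_zero_of_notMem_tsupport (fun h => hx (hκT h))
  have hcont : ContinuousOn (fun x => κ x * F x) T := hκs.continuous.continuousOn.mul hFc
  have hcont' : Continuous (fun x => κ x * F x) := by
    rw [continuous_iff_continuousAt]
    intro x
    by_cases hx : x ∈ T
    · exact hcont.continuousAt (hopen.mem_nhds hx)
    · have hx' : x ∉ tsupport κ := fun h => hx (hκT h)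
      have h1 : κ =ᶠ[𝓝 x] 0 := notMem_tsupport_iff_eventuallyEq.1 hx'
      have h2 : (fun x => κ x * F x) =ᶠ[𝓝 x] fun _ => (0 : ℝ) := by
        filter_upwards [h1] with y hy
        simp [hy]
      exact continuousAt_const.congr h2.symm
  have hsupp : HasCompactSupport (fun x => κ x * F x) := hκc.mul_right
  have hnn : ∀ x, 0 ≤ κ x * F x := by
    intro x
    by_cases hx : x ∈ T
    · exact mul_nonneg (hκ.nonneg x) (hF0 x hx)
    · simp [hκ0 x hx]
  have h0 : ∫ x, κ x * F x = 0 := by
    rw [← hFint]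
    symm
    apply setIntegral_eq_integral_of_forall_compl_eq_zero
    intro x hx
    simp [hκ0 x hx]
  have h1 : ∀ x, κ x * F x = 0 := by
    intro x
    by_contra hx
    have := hcont'.integral_pos_of_hasCompactSupport_nonneg_nonzero (μ := volume) hsupp hnn hx
    rw [h0] at this
    exact lt_irrefl _ this
  intro x hx
  have hs := hκ.sum x hx
  have : ∃ γ y, R γ x y ∧ κ y ≠ 0 := by
    by_contra hcon
    push Not at hcon
    have h2 : AS R x (fun _ y => κ y) = 0 := by
      unfold AS
      apply finsum_eq_zero_of_forall_eq_zero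
      intro p
      by_cases hp : R p.1 x p.2
      · simp [hp, hcon p.1 p.2 hp]
      · simp [hp]
    rw [h2] at hs
    exact zero_ne_one hs
  obtain ⟨γ, y, hR, hy⟩ := this
  obtain ⟨τ, U, W, hU, hW, hxU, hyW, hUT, hWT, hτ, -, hmap, -, hiff⟩ := h.loc γ x y hR
  have hτx : y = τ x := (hiff x hxU y hyW).1 hR
  have harr : Arr R U τ := ⟨hU, hτ, γ, fun x' hx' => (hiff x' hx' (τ x') (hmap hx')).2 rfl⟩
  have hFy : F y = 0 := by
    rcases mul_eq_zero.1 (h1 y) with h2 | h2
    · exact absurd h2 hy
    · exact h2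
  rw [hFinv U τ harr x hxU, ← hτx, hFy, zero_mul]

end Pool.Agent.Helper55.RK
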