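import Pool.Agent.Helper95.RK.GoalsB
import Pool.Agent.Helper4.SP.PARB

/-!
# Packet RK PARBK: basics on local parametrizations and the action
-/

open Complex Metric Set Filter Topology MeasureTheory
open scoped ContDiff ComplexConjugate ComplexOrder Manifold Matrix

namespace Pool.Agent.Helper55.RK

open Pool.Agent.Helper95.Lin Pool.Agent.Helper16.Abund Pool.Agent.Helper92.Orb
  Pool.Agent.Helper10.SP Pool.Agent.Helper95.RK Pool.Agent.Helper4.SP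
open Pool.Agent.Helper64.SP (exists_inv)

universe u v

section transition

variable {b k : ℕ} {G : Type u} {M : Type v} [Group G] [MulAction G M]
  [TopologicalSpace M] [ChartedSpace (Fin (b + k) → ℂ) M]
  [IsManifold 𝓘(ℂ, Fin (b + k) → ℂ) ω M] {h : M → Matrix (Fin (b + k)) (Fin (b + k)) ℂ}
  {v : M → ℝ}

/-- The transition map between two parametrizations, up to the action of `γ`. -/
theorem transition (hD : DataK b k G M h v) {V₁ V₂ : Set (Cn (b + k))} {ψ₁ ψ₂ : Cn (b + k) → M}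
    (h₁ : Par (b + k) ψ₁ V₁) (h₂ : Par (b + k) ψ₂ V₂) {z₁ z₂ : Cn (b + k)} (hz₁ : z₁ ∈ V₁)
    (hz₂ : z₂ ∈ V₂) (γ : G) (heq : ψ₂ z₂ = γ • ψ₁ z₁) :
    ∃ (W' : Set (Cn (b + k))) (φ : Cn (b + k) → Cn (b + k)), IsOpen W' ∧ z₁ ∈ W' ∧ W' ⊆ V₁ ∧
      DifferentiableOn ℂ φ W' ∧ MapsTo φ W' V₂ ∧ φ z₁ = z₂ ∧
      (∀ z ∈ W', (fderiv ℂ φ z).det ≠ 0) ∧ (∀ z ∈ W', ψ₂ (φ z) = γ • ψ₁ z) ∧
      ∀ z ∈ W', lpot (b + k) v ψ₁ z =
        lpot (b + k) v ψ₂ (φ z) + Real.log (‖(fderiv ℂ φ z).det‖ ^ 2) := by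
  obtain ⟨⟨hV₁, hm₁⟩, hj₁⟩ := h₁
  obtain ⟨⟨hV₂, hm₂⟩, hj₂⟩ := h₂
  set χ := chartAt (Fin (b + k) → ℂ) (ψ₂ z₂) with hχ
  have hc₂ : ContinuousOn ψ₂ V₂ := hm₂.continuousOn
  have hU₂ : IsOpen (V₂ ∩ ψ₂ ⁻¹' χ.source) := hc₂.isOpen_inter_preimage hV₂ χ.open_source
  have hmF : ∀ z ∈ V₂ ∩ ψ₂ ⁻¹' χ.source,
      MDifferentiableAt 𝓘(ℂ, Fin (b + k) → ℂ) 𝓘(ℂ, Fin (b + k) → ℂ) (χ ∘ ψ₂) z := by
    intro z hz
    exact ((mdiff_chart (ψ₂ z₂)).mdifferentiableAt (χ.open_source.mem_nhds hz.2)).comp z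
      (hm₂.mdifferentiableAt (hV₂.mem_nhds hz.1))
  have hF : DifferentiableOn ℂ (χ ∘ ψ₂) (V₂ ∩ ψ₂ ⁻¹' χ.source) := fun z hz =>
    (mdifferentiableAt_iff_differentiableAt.1 (hmF z hz)).differentiableWithinAt
  have hdet : ∀ z ∈ V₂ ∩ ψ₂ ⁻¹' χ.source, (fderiv ℂ (χ ∘ ψ₂) z).det ≠ 0 := by
    intro z hz
    rw [← jac_eq_fderiv, jac_comp ((mdiff_chart (ψ₂ z₂)).mdifferentiableAt
      (χ.open_source.mem_nhds hz.2)) (hm₂.mdifferentiableAt (hV₂.mem_nhds hz.1))]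
    refine mul_ne_zero ?_ (hj₂ z hz.1)
    have hs : MDifferentiableAt 𝓘(ℂ, Fin (b + k) → ℂ) 𝓘(ℂ, Fin (b + k) → ℂ) χ.symm
        (χ (ψ₂ z)) :=
      (mdiff_chart_symm (ψ₂ z₂)).mdifferentiableAt (χ.open_target.mem_nhds (χ.map_source hz.2))
    have h1 : MDifferentiableAt 𝓘(ℂ, Fin (b + k) → ℂ) 𝓘(ℂ, Fin (b + k) → ℂ) χ (ψ₂ z) :=
      (mdiff_chart (ψ₂ z₂)).mdifferentiableAt (χ.open_source.mem_nhds hz.2)
    have := jac_mul_eq_one hs h1 (by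
      filter_upwards [χ.open_source.mem_nhds hz.2] with w hw
      exact χ.left_inv hw)
    intro h0
    rw [h0, mul_zero] at this
    exact zero_ne_one this
  have hz₂U : z₂ ∈ V₂ ∩ ψ₂ ⁻¹' χ.source := ⟨hz₂, mem_chart_source _ _⟩
  obtain ⟨e, hze, heU, hee, hes⟩ := exists_inv hU₂ hF hz₂U hdet
  have hmg : ∀ z ∈ V₁, MDifferentiableAt 𝓘(ℂ, Fin (b + k) → ℂ) 𝓘(ℂ, Fin (b + k) → ℂ)
      (fun w => γ • ψ₁ w) z := fun z hz =>
    (hD.act.holo γ (ψ₁ z)).comp z (hm₁.mdifferentiableAt (hV₁.mem_nhds hz))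
  have hcg : ContinuousOn (fun w => γ • ψ₁ w) V₁ := fun z hz =>
    (hmg z hz).continuousAt.continuousWithinAt
  have hO₁ : IsOpen (V₁ ∩ (fun w => γ • ψ₁ w) ⁻¹' χ.source) :=
    hcg.isOpen_inter_preimage hV₁ χ.open_source
  have hmχ : ∀ z ∈ V₁ ∩ (fun w => γ • ψ₁ w) ⁻¹' χ.source,
      MDifferentiableAt 𝓘(ℂ, Fin (b + k) → ℂ) 𝓘(ℂ, Fin (b + k) → ℂ)
      (fun w => χ (γ • ψ₁ w)) z := fun z hz =>
    ((mdiff_chart (ψ₂ z₂)).mdifferentiableAt (χ.open_source.mem_nhds hz.2)).comp z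
      (hmg z hz.1)
  have hcχ : ContinuousOn (fun w => χ (γ • ψ₁ w)) (V₁ ∩ (fun w => γ • ψ₁ w) ⁻¹' χ.source) :=
    fun z hz => (hmχ z hz).continuousAt.continuousWithinAt
  have hW' : IsOpen ((V₁ ∩ (fun w => γ • ψ₁ w) ⁻¹' χ.source) ∩
      (fun w => χ (γ • ψ₁ w)) ⁻¹' e.target) := hcχ.isOpen_inter_preimage hO₁ e.open_target
  have hφd : DifferentiableOn ℂ (fun w => e.symm (χ (γ • ψ₁ w)))
      ((V₁ ∩ (fun w => γ • ψ₁ w) ⁻¹' χ.source) ∩ (fun w => χ (γ • ψ₁ w)) ⁻¹' e.target) := by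
    refine hes.comp (fun z hz => ?_) (fun z hz => hz.2)
    exact (mdifferentiableAt_iff_differentiableAt.1 (hmχ z hz.1)).differentiableWithinAt
  have hφψ : ∀ z ∈ (V₁ ∩ (fun w => γ • ψ₁ w) ⁻¹' χ.source) ∩
      (fun w => χ (γ • ψ₁ w)) ⁻¹' e.target, e.symm (χ (γ • ψ₁ z)) ∈ V₂ ∧
      ψ₂ (e.symm (χ (γ • ψ₁ z))) = γ • ψ₁ z := by
    intro z hz
    have hs := e.map_target hz.2
    have hU := heU hs
    refine ⟨hU.1, ?_⟩
    have h3 : χ (ψ₂ (e.symm (χ (γ • ψ₁ z)))) = χ (γ • ψ₁ z) := by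
      have h4 := e.right_inv hz.2
      rw [hee] at h4
      exact h4
    exact χ.injOn hU.2 hz.1.2 h3
  have hz₁W : z₁ ∈ (V₁ ∩ (fun w => γ • ψ₁ w) ⁻¹' χ.source) ∩
      (fun w => χ (γ • ψ₁ w)) ⁻¹' e.target := by
    refine ⟨⟨hz₁, ?_⟩, ?_⟩
    · change γ • ψ₁ z₁ ∈ χ.source
      rw [← heq]
      exact mem_chart_source _ _
    · change χ (γ • ψ₁ z₁) ∈ e.target
      rw [← heq]
      have := e.map_source hze
      rw [hee] at this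
      exact this
  have hφz : e.symm (χ (γ • ψ₁ z₁)) = z₂ := by
    rw [← heq]
    have := e.left_inv hze
    rw [hee] at this
    exact this
  have hjac : ∀ z ∈ (V₁ ∩ (fun w => γ • ψ₁ w) ⁻¹' χ.source) ∩
      (fun w => χ (γ • ψ₁ w)) ⁻¹' e.target,
      jac (b + k) ψ₂ (e.symm (χ (γ • ψ₁ z))) *
        (fderiv ℂ (fun w => e.symm (χ (γ • ψ₁ w))) z).det =
      jac (b + k) (fun y : M => γ • y) (ψ₁ z) * jac (b + k) ψ₁ z := by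
    intro z hz
    have hd : MDifferentiableAt 𝓘(ℂ, Fin (b + k) → ℂ) 𝓘(ℂ, Fin (b + k) → ℂ)
        (fun w => e.symm (χ (γ • ψ₁ w))) z :=
      mdifferentiableAt_iff_differentiableAt.2 (hφd.differentiableAt (hW'.mem_nhds hz))
    rw [← jac_eq_fderiv, ← jac_comp (g := ψ₂) (f := fun w => e.symm (χ (γ • ψ₁ w)))
      (hm₂.mdifferentiableAt (hV₂.mem_nhds (hφψ z hz).1)) hd,
      ← jac_comp (g := fun y : M => γ • y) (f := ψ₁) (hD.act.holo γ (ψ₁ z))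
      (hm₁.mdifferentiableAt (hV₁.mem_nhds hz.1.1))]
    apply jac_congr
    filter_upwards [hW'.mem_nhds hz] with w hw
    exact (hφψ w hw).2
  have hγ : ∀ x : M, jac (b + k) (fun y : M => γ • y) x ≠ 0 :=
    fun x => jac_smul_ne_zero hD.act.holo γ x
  have hdφ : ∀ z ∈ (V₁ ∩ (fun w => γ • ψ₁ w) ⁻¹' χ.source) ∩
      (fun w => χ (γ • ψ₁ w)) ⁻¹' e.target,
      (fderiv ℂ (fun w => e.symm (χ (γ • ψ₁ w))) z).det ≠ 0 := by
    intro z hz h0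
    have := hjac z hz
    rw [h0, mul_zero] at this
    exact mul_ne_zero (hγ _) (hj₁ z hz.1.1) this.symm
  refine ⟨_, fun w => e.symm (χ (γ • ψ₁ w)), hW', hz₁W, fun z hz => hz.1.1, hφd,
    fun z hz => (hφψ z hz).1, hφz, hdφ, fun z hz => (hφψ z hz).2, ?_⟩
  intro z hz
  have hp := hD.met.pos
  have e1 := hD.vinv γ (ψ₁ z)
  have hne2 : ‖(fderiv ℂ (fun w => e.symm (χ (γ • ψ₁ w))) z).det‖ ^ 2 ≠ 0 :=
    pow_ne_zero _ (norm_ne_zero_iff.2 (hdφ z hz))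
  have hne1 : v (ψ₂ (e.symm (χ (γ • ψ₁ z)))) * ‖jac (b + k) ψ₂ (e.symm (χ (γ • ψ₁ z)))‖ ^ 2 ≠ 0 :=
    mul_ne_zero (hp _).ne' (pow_ne_zero _ (norm_ne_zero_iff.2 (hj₂ _ (hφψ z hz).1)))
  simp only [lpot]
  rw [← Real.log_mul hne1 hne2]
  congr 1
  rw [← e1, (hφψ z hz).2, mul_assoc, mul_assoc, ← mul_pow, ← mul_pow, ← norm_mul, ← norm_mul,
    hjac z hz]

end transition

theorem parbk : S_PARBK.{u, v} := by
  intro b k G M _ _ _ _ _ _ h v hD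
  have hγ : ∀ (γ : G) (x : M), jac (b + k) (fun y : M => γ • y) x ≠ 0 :=
    fun γ x => jac_smul_ne_zero hD.act.holo γ x
  refine ⟨?_, ?_, ?_, ?_, ?_⟩
  · intro V V' ψ φ hψ hV' hφ hmaps hdet
    have hm : ∀ x ∈ V', MDifferentiableAt 𝓘(ℂ, Fin (b + k) → ℂ) 𝓘(ℂ, Fin (b + k) → ℂ) ψ (φ x) :=
      fun x hx => hψ.1.2.mdifferentiableAt (hψ.1.1.mem_nhds (hmaps hx))
    have hmφ : ∀ x ∈ V', MDifferentiableAt 𝓘(ℂ, Fin (b + k) → ℂ) 𝓘(ℂ, Fin (b + k) → ℂ) φ x :=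
      fun x hx => mdifferentiableAt_iff_differentiableAt.2 (hφ.differentiableAt (hV'.mem_nhds hx))
    have hj : ∀ x ∈ V', jac (b + k) (ψ ∘ φ) x = jac (b + k) ψ (φ x) * (fderiv ℂ φ x).det := by
      intro x hx
      rw [jac_comp (hm x hx) (hmφ x hx), jac_eq_fderiv]
    refine ⟨⟨⟨hV', fun x hx => ((hm x hx).comp x (hmφ x hx)).mdifferentiableWithinAt⟩,
      fun x hx => ?_⟩, fun x hx => ⟨hj x hx, ?_⟩⟩
    · rw [hj x hx]
      exact mul_ne_zero (hψ.2 _ (hmaps hx)) (hdet x hx)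
    · have hne2 : ‖(fderiv ℂ φ x).det‖ ^ 2 ≠ 0 :=
        pow_ne_zero _ (norm_ne_zero_iff.2 (hdet x hx))
      have hne1 : v (ψ (φ x)) * ‖jac (b + k) ψ (φ x)‖ ^ 2 ≠ 0 :=
        mul_ne_zero (hD.met.pos _).ne' (pow_ne_zero _ (norm_ne_zero_iff.2 (hψ.2 _ (hmaps hx))))
      simp only [lpot]
      rw [← Real.log_mul hne1 hne2, hj x hx, norm_mul, mul_pow, mul_assoc]
      rfl
  · intro γ V ψ hψ
    have hm : ∀ x ∈ V, MDifferentiableAt 𝓘(ℂ, Fin (b + k) → ℂ) 𝓘(ℂ, Fin (b + k) → ℂ) ψ x :=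
      fun x hx => hψ.1.2.mdifferentiableAt (hψ.1.1.mem_nhds hx)
    have hj : ∀ x ∈ V, jac (b + k) (fun y => γ • ψ y) x =
        jac (b + k) (fun y : M => γ • y) (ψ x) * jac (b + k) ψ x := fun x hx =>
      jac_comp (g := fun y : M => γ • y) (f := ψ) (hD.act.holo γ (ψ x)) (hm x hx)
    refine ⟨⟨⟨hψ.1.1, fun x hx => ((hD.act.holo γ (ψ x)).comp x (hm x hx)).mdifferentiableWithinAt⟩,
      fun x hx => ?_⟩, fun x hx => ?_⟩
    · rw [hj x hx]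
      exact mul_ne_zero (hγ _ _) (hψ.2 x hx)
    · simp only [lpot]
      rw [hj x hx, norm_mul, mul_pow, ← mul_assoc, hD.vinv γ (ψ x)]
  · intro V V' ψ ψ' hψ hψ' γ x hx x' hx' hxx
    obtain ⟨W₁, φ, hW₁, hxW₁, hW₁V, hφ, hφV, hφx, hdet, heq, -⟩ :=
      transition hD hψ hψ' hx hx' γ hxx.symm
    obtain ⟨W, hWV, hWo, hxW, hWi⟩ := par_injOn hψ' hx'
    obtain ⟨U₁, hU₁W, hU₁o, hxU₁, hU₁i⟩ := par_injOn (par_mono hψ hW₁ hW₁V) hxW₁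
    have hUo : IsOpen (U₁ ∩ φ ⁻¹' W) :=
      (hφ.continuousOn.mono hU₁W).isOpen_inter_preimage hU₁o hWo
    refine ⟨φ, U₁ ∩ φ ⁻¹' W, W, hUo, hWo, ⟨hxU₁, ?_⟩, hxW, fun y hy => hW₁V (hU₁W hy.1), hWV,
      hφ.mono fun y hy => hU₁W hy.1, ?_, fun y hy => hy.2, hφx,
      fun y hy => hdet y (hU₁W hy.1), ?_⟩
    · show φ x ∈ W
      rw [hφx]
      exact hxW
    · intro y hy y' hy' hyy
      refine hU₁i hy.1 hy'.1 ?_
      have h1 := heq y (hU₁W hy.1)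
      have h2 := heq y' (hU₁W hy'.1)
      rw [hyy] at h1
      exact MulAction.injective γ (h1.symm.trans h2)
    · intro y hy y' hy'
      constructor
      · intro h1
        rw [← heq y (hU₁W hy.1)] at h1
        exact (hWi hy.2 hy' h1).symm
      · rintro rfl
        exact (heq y (hU₁W hy.1)).symm
  · intro V ψ hψ U hU hUo
    exact par_open (par_mono hψ hUo hU)
  · intro γ
    exact (hD.act.holo γ).continuous


end Pool.Agent.Helper55.RK
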